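import Mathlib
import Pool.Agent.SWP.PosMu
import Pool.Agent.SWP.Run
import Pool.Agent.SWP.RunMu

/-!
The values `μ(p+1), …, μ(p+H)` for almost all primes `p`, in windows shorter than `log X`.
-/

set_option autoImplicit false

namespace Pool.Agent.Results.MP_0bfb7f_nt.ShortWindows

open Finset ArithmeticFunction

/-- the primes `p ≤ X` -/
def primesUpTo (X : ℕ) : Finset ℕ := (Finset.Icc 1 X).filter Nat.Prime

private lemma shift (p H : ℕ) : Finset.Ioc p (p + H) = (Finset.Icc 1 H).image (fun h => p + h) := by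
  ext n
  simp only [Finset.mem_Ioc, Finset.mem_image, Finset.mem_Icc]
  constructor
  · intro h
    exact ⟨n - p, by omega, by omega⟩
  · rintro ⟨h, h1, rfl⟩
    omega

private lemma sum_shift {M : Type} [AddCommMonoid M] (f : ℕ → M) (p H : ℕ) :
    ∑ n ∈ Finset.Ioc p (p + H), f n = ∑ h ∈ Finset.Icc 1 H, f (p + h) := by
  rw [shift, Finset.sum_image (fun a _ b _ h => Nat.add_left_cancel h)]

private lemma card_shift (P : ℕ → Prop) [DecidablePred P] (p H : ℕ) :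
    ((Finset.Ioc p (p + H)).filter P).card = ((Finset.Icc 1 H).filter (fun h => P (p + h))).card := by
  rw [Finset.card_filter, Finset.card_filter, sum_shift]

theorem result :
    (∀ ε : ℝ, 0 < ε → ∃ (δ : ℝ) (X₀ : ℕ), 0 < δ ∧ ∀ X H : ℕ, X₀ ≤ X → (Real.log X) ^ (1 - δ) ≤ H → H ≤ X →
      ∑ p ∈ primesUpTo X, |∑ h ∈ Finset.Icc 1 H, ((moebius (p + h) : ℤ) : ℝ)| ≤
        ε * H * (primesUpTo X).card) ∧
    (∀ θ ε : ℝ, 1 / 2 < θ → 0 < ε → ∃ (c : ℝ) (X₀ : ℕ), 0 < c ∧ ∀ X H : ℕ, X₀ ≤ X →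
      (Real.log X) ^ θ ≤ H → H ≤ X →
      ∃ E ⊆ primesUpTo X, (E.card : ℝ) ≤ ε * (primesUpTo X).card ∧ ∀ p ∈ primesUpTo X \ E,
        c * H ≤ (((Finset.Icc 1 H).filter (fun h => moebius (p + h) = 1)).card : ℝ) ∧
        c * H ≤ (((Finset.Icc 1 H).filter (fun h => moebius (p + h) = -1)).card : ℝ)) ∧
    (∀ ε : ℝ, 0 < ε → ∃ (C : ℝ) (X₀ : ℕ), ∀ X H : ℕ, X₀ ≤ X →
      C * Real.sqrt (Real.log X * Real.log (Real.log X)) ≤ H →
      ∃ E ⊆ primesUpTo X, (E.card : ℝ) ≤ ε * (primesUpTo X).card ∧ ∀ p ∈ primesUpTo X \ E,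
        (∃ h ∈ Finset.Icc 1 H, moebius (p + h) = 1) ∧ (∃ h ∈ Finset.Icc 1 H, moebius (p + h) = -1)) ∧
    (∀ ε : ℝ, 0 < ε → ∃ (C : ℝ) (X₀ : ℕ), ∀ X H : ℕ, X₀ ≤ X →
      C * Real.sqrt (Real.log X) ≤ H →
      ∃ E ⊆ primesUpTo X, (E.card : ℝ) ≤ ε * (primesUpTo X).card ∧ ∀ p ∈ primesUpTo X \ E,
        (∃ h ∈ Finset.Icc 1 H, liouville (p + h) = 1) ∧ (∃ h ∈ Finset.Icc 1 H, liouville (p + h) = -1)) := by
  have hPP : ∀ X, Pool.SWP.PP X = primesUpTo X := fun X => rfl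
  refine ⟨fun ε hε => ?_, fun θ ε hθ hε => ?_, fun ε hε => ?_, fun ε hε => ?_⟩
  · obtain ⟨δ, X₀, hδ, h⟩ := Pool.SWP.short_mu_all ε hε
    refine ⟨δ, X₀, hδ, fun X H h1 h2 h3 => ?_⟩
    have h4 := h X H h1 h2 h3
    rw [hPP] at h4
    refine le_trans (le_of_eq (Finset.sum_congr rfl fun p _ => ?_)) h4
    rw [← Real.norm_eq_abs, ← Complex.norm_real, sum_shift]
    congr 1
    push_cast
    rfl
  · obtain ⟨c, X₀, hc, h⟩ := Pool.SWP.pos_all θ ε hθ hε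
    refine ⟨c, X₀, hc, fun X H h1 h2 h3 => ?_⟩
    obtain ⟨E, hE, hE1, hE2⟩ := h X H h1 h2 h3
    refine ⟨E, hE, hE1, fun p hp => ?_⟩
    have h4 := hE2 p hp
    rw [card_shift, card_shift] at h4
    exact h4
  · obtain ⟨C, X₀, h⟩ := Pool.SWP.run_mu ε hε
    refine ⟨C, X₀, fun X H h1 h2 => ⟨_, Finset.filter_subset _ _, h X H h1 h2, fun p hp => ?_⟩⟩
    rw [Finset.mem_sdiff, Finset.mem_filter, not_and] at hp
    have h3 := hp.2 hp.1
    rw [not_or] at h3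
    push_neg at h3
    obtain ⟨⟨n, hn, hn1⟩, ⟨m, hm, hm1⟩⟩ := h3
    rw [shift, Finset.mem_image] at hn hm
    obtain ⟨k, hk, rfl⟩ := hn
    obtain ⟨l, hl, rfl⟩ := hm
    exact ⟨⟨k, hk, hn1⟩, ⟨l, hl, hm1⟩⟩
  · obtain ⟨C, X₀, h⟩ := Pool.SWP.run_bound ε hε
    refine ⟨C, X₀, fun X H h1 h2 => ⟨_, Finset.filter_subset _ _, h X H h1 h2, fun p hp => ?_⟩⟩
    rw [Finset.mem_sdiff, Finset.mem_filter, not_and] at hp
    have h3 := hp.2 hp.1
    rw [not_or] at h3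
    push_neg at h3
    obtain ⟨⟨n, hn, hn1⟩, ⟨m, hm, hm1⟩⟩ := h3
    have hl : ∀ n, 1 ≤ n → liouville n = 1 ∨ liouville n = -1 := by
      intro n hn
      rw [liouville_apply (by omega)]
      exact neg_one_pow_eq_or ℤ _
    rw [shift, Finset.mem_image] at hn hm
    obtain ⟨k, hk, rfl⟩ := hn
    obtain ⟨l, hl', rfl⟩ := hm
    rw [Finset.mem_Icc] at hk hl'
    refine ⟨⟨l, Finset.mem_Icc.2 hl', ?_⟩, ⟨k, Finset.mem_Icc.2 hk, ?_⟩⟩
    · rcases hl (p + l) (by omega) with h6 | h6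
      · exact h6
      · exact absurd h6 hm1
    · rcases hl (p + k) (by omega) with h6 | h6
      · exact absurd h6 hn1
      · exact h6

end Pool.Agent.Results.MP_0bfb7f_nt.ShortWindows
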